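import Mathlib

set_option autoImplicit false

namespace Pool.Agent.Results.MP_0d3661_nt.OddBinomial

open Complex

/-- horizontal displacement of a step: `true` is the step `(1, 1)`, `false` is `(-1, 1)` -/
def sgn (b : Bool) : ℤ := if b then 1 else -1

/-- the number of turns of a sequence of steps -/
def turns : List Bool → ℕ
  | [] => 0
  | [_] => 0
  | a :: b :: l => (if a = b then 0 else 1) + turns (b :: l)

/-- The Feynman checkers amplitude: the sum runs over all step sequences of length `t` whose first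
step is `(1, 1)` and which end at `(x, t)`. -/
noncomputable def amp (x : ℤ) (t : ℕ) : ℂ :=
  ((2 : ℝ) ^ ((1 - (t : ℝ)) / 2) : ℝ) * I *
    ∑ w : Fin t → Bool,
      if (List.ofFn w).head? = some true ∧ ((List.ofFn w).map sgn).sum = x then
        (-I) ^ turns (List.ofFn w) else 0

/-- sum over continuations -/
noncomputable def G (b : Bool) (n : ℕ) (y : ℤ) : ℂ :=
  ∑ w : Fin n → Bool, if ((List.ofFn w).map sgn).sum = y then
    (-I) ^ turns (b :: List.ofFn w) else 0

lemma sum_succ (n : ℕ) (f : (Fin (n + 1) → Bool) → ℂ) :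
    ∑ w, f w = (∑ w : Fin n → Bool, f (Fin.cons true w)) + ∑ w : Fin n → Bool, f (Fin.cons false w) := by
  rw [← (Fin.consEquiv (fun _ : Fin (n + 1) => Bool)).sum_comp, Fintype.sum_prod_type,
    Fintype.sum_bool]
  rfl

lemma ofFn_cons (n : ℕ) (b : Bool) (w : Fin n → Bool) :
    List.ofFn (Fin.cons b w : Fin (n + 1) → Bool) = b :: List.ofFn w := by
  rw [List.ofFn_succ]
  simp

lemma G_succ (b : Bool) (n : ℕ) (y : ℤ) :
    G b (n + 1) y = G b n (y - sgn b) + (-I) * G (!b) n (y - sgn (!b)) := by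
  unfold G
  rw [sum_succ]
  simp only [ofFn_cons, List.map_cons, List.sum_cons, turns]
  have e1 : ∀ (c : Bool) (w : Fin n → Bool), (sgn c + ((List.ofFn w).map sgn).sum = y) ↔
      (((List.ofFn w).map sgn).sum = y - sgn c) := by
    intro c w; constructor <;> intro h <;> linarith
  simp only [e1]
  rw [Finset.mul_sum]
  cases b
  · simp only [Bool.not_false, if_true, zero_add, reduceCtorEq, if_false, pow_add, pow_one,
      mul_ite, mul_zero]
    rw [add_comm]
  · simp only [Bool.not_true, if_true, zero_add, reduceCtorEq, if_false, pow_add, pow_one,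
      mul_ite, mul_zero]

lemma amp_eq (x : ℤ) (n : ℕ) :
    amp x (n + 1) = ((2 : ℝ) ^ ((1 - ((n + 1 : ℕ) : ℝ)) / 2) : ℝ) * I * G true n (x - 1) := by
  unfold amp G
  congr 1
  rw [sum_succ]
  have h2 : (∑ w : Fin n → Bool,
      if (List.ofFn (Fin.cons false w : Fin (n + 1) → Bool)).head? = some true ∧
        ((List.ofFn (Fin.cons false w : Fin (n + 1) → Bool)).map sgn).sum = x then
        (-I) ^ turns (List.ofFn (Fin.cons false w : Fin (n + 1) → Bool)) else 0) = 0 := by
    apply Finset.sum_eq_zero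
    intro w _
    rw [if_neg]
    rw [ofFn_cons]
    simp
  rw [h2, add_zero]
  apply Finset.sum_congr rfl
  intro w _
  rw [ofFn_cons]
  have e1 : ((true :: List.ofFn w).head? = some true ∧ ((true :: List.ofFn w).map sgn).sum = x) ↔
      (((List.ofFn w).map sgn).sum = x - 1) := by
    simp only [List.head?_cons, List.map_cons, List.sum_cons, true_and, sgn, if_true]
    constructor <;> intro h <;> linarith
  simp only [e1]

/-- binomial coefficients modulo 2, with integer lower index -/
def B (n : ℕ) (j : ℤ) : ZMod 2 := if 0 ≤ j then ((n.choose j.toNat : ℕ) : ZMod 2) else 0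

lemma B_succ (n : ℕ) (j : ℤ) : B (n + 1) j = B n (j - 1) + B n j := by
  unfold B
  rcases lt_trichotomy j 0 with h | h | h
  · rw [if_neg (by omega), if_neg (by omega), if_neg (by omega), add_zero]
  · subst h
    simp
  · obtain ⟨m, rfl⟩ : ∃ m : ℕ, j = (m : ℤ) + 1 := ⟨(j - 1).toNat, by omega⟩
    rw [if_pos (by omega), if_pos (by omega), if_pos (by omega)]
    have h1 : ((m : ℤ) + 1).toNat = m + 1 := by omega
    have h2 : ((m : ℤ) + 1 - 1).toNat = m := by omega
    rw [h1, h2, Nat.choose_succ_succ]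
    push_cast
    rfl

lemma main_aux (n : ℕ) : ∀ j : ℤ,
    (∃ e o : ℤ, G true (n + 1) (2 * j - (n + 1)) = e + o * (-I) ∧ (e : ZMod 2) = B n (j - 1) ∧
      (o : ZMod 2) = B n j) ∧
    (∃ e o : ℤ, G false (n + 1) (2 * j - (n + 1)) = e + o * (-I) ∧ (e : ZMod 2) = B n j ∧
      (o : ZMod 2) = B n (j - 1)) := by
  induction n with
  | zero =>
    intro j
    have g0 : ∀ (b : Bool) (y : ℤ), G b 0 y = if y = 0 then 1 else 0 := by
      intro b y
      unfold G
      simp [turns, eq_comm]
    have hB : ∀ i : ℤ, B 0 i = if i = 0 then 1 else 0 := by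
      intro i
      unfold B
      by_cases hi : i = 0
      · subst hi; simp
      · rw [if_neg hi]
        by_cases h2 : 0 ≤ i
        · rw [if_pos h2, Nat.choose_eq_zero_of_lt (by omega)]
          simp
        · rw [if_neg h2]
    constructor
    · refine ⟨if j = 1 then 1 else 0, if j = 0 then 1 else 0, ?_, ?_, ?_⟩
      · rw [G_succ, g0, g0]
        simp only [sgn, Bool.not_true, if_true, Nat.cast_zero]
        have h1 : (2 * j - (0 + 1) - 1 = 0) ↔ j = 1 := by omega
        have h2 : (2 * j - (0 + 1) - (if false = true then (1 : ℤ) else -1) = 0) ↔ j = 0 := by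
          simp only [reduceCtorEq, if_false]; omega
        simp only [h1, h2]
        split_ifs <;> simp
      · rw [hB]
        have : (j - 1 = 0) ↔ j = 1 := by omega
        simp only [this]
        split_ifs <;> simp
      · rw [hB]
        split_ifs <;> simp
    · refine ⟨if j = 0 then 1 else 0, if j = 1 then 1 else 0, ?_, ?_, ?_⟩
      · rw [G_succ, g0, g0]
        simp only [sgn, Bool.not_false, if_true, Nat.cast_zero]
        have h1 : (2 * j - (0 + 1) - 1 = 0) ↔ j = 1 := by omega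
        have h2 : (2 * j - (0 + 1) - (if false = true then (1 : ℤ) else -1) = 0) ↔ j = 0 := by
          simp only [reduceCtorEq, if_false]; omega
        simp only [h1, h2]
        split_ifs <;> simp
      · rw [hB]
        split_ifs <;> simp
      · rw [hB]
        have : (j - 1 = 0) ↔ j = 1 := by omega
        simp only [this]
        split_ifs <;> simp
  | succ n ih =>
    intro j
    obtain ⟨⟨e1, o1, h1, he1, ho1⟩, _⟩ := ih (j - 1)
    obtain ⟨_, ⟨e2, o2, h2, he2, ho2⟩⟩ := ih j
    obtain ⟨⟨e3, o3, h3, he3, ho3⟩, _⟩ := ih (j - 1)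
    obtain ⟨_, ⟨e4, o4, h4, he4, ho4⟩⟩ := ih j
    have neg2 : ∀ z : ZMod 2, -z = z := by decide
    constructor
    · refine ⟨e1 - o2, o1 + e2, ?_, ?_, ?_⟩
      · rw [G_succ]
        have a1 : (2 * j - ((n + 1 : ℕ) + 1) - sgn true : ℤ) = 2 * (j - 1) - (n + 1) := by
          simp only [sgn, if_true]; push_cast; ring
        have a2 : (2 * j - ((n + 1 : ℕ) + 1) - sgn (!true) : ℤ) = 2 * j - (n + 1) := by
          simp only [sgn, Bool.not_true, reduceCtorEq, if_false]; push_cast; ring
        rw [a1, a2, h1, Bool.not_true, h2]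
        push_cast
        linear_combination (o2 : ℂ) * I_sq
      · push_cast
        rw [he1, ho2, B_succ, sub_eq_add_neg, neg2]
      · push_cast
        rw [ho1, he2, B_succ]
    · obtain ⟨⟨e5, o5, h5, he5, ho5⟩, _⟩ := ih (j - 1)
      obtain ⟨_, ⟨e6, o6, h6, he6, ho6⟩⟩ := ih j
      refine ⟨e6 - o5, o6 + e5, ?_, ?_, ?_⟩
      · rw [G_succ]
        have a1 : (2 * j - ((n + 1 : ℕ) + 1) - sgn false : ℤ) = 2 * j - (n + 1) := by
          simp only [sgn, reduceCtorEq, if_false]; push_cast; ring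
        have a2 : (2 * j - ((n + 1 : ℕ) + 1) - sgn (!false) : ℤ) = 2 * (j - 1) - (n + 1) := by
          simp only [sgn, Bool.not_false, if_true]; push_cast; ring
        rw [a1, a2, h6, Bool.not_false, h5]
        push_cast
        linear_combination (o5 : ℂ) * I_sq
      · push_cast
        rw [he6, ho5, B_succ, sub_eq_add_neg, neg2, add_comm]
      · push_cast
        rw [ho6, he5, B_succ, add_comm]

lemma amp_form (n : ℕ) (x j : ℤ) (hx : x = 2 * j - n) :
    ∃ (c : ℝ) (e o : ℤ), 0 < c ∧ (amp x (n + 2)).re = c * o ∧ (amp x (n + 2)).im = c * e ∧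
      (e : ZMod 2) = B n (j - 1) ∧ (o : ZMod 2) = B n j := by
  obtain ⟨⟨e, o, h, he, ho⟩, _⟩ := main_aux n j
  refine ⟨(2 : ℝ) ^ ((1 - ((n + 1 + 1 : ℕ) : ℝ)) / 2), e, o, by positivity, ?_, ?_, he, ho⟩
  · have h1 : x - 1 = 2 * j - (n + 1) := by omega
    rw [show n + 2 = (n + 1) + 1 from rfl, amp_eq, h1, h]
    rw [mul_assoc, Complex.re_ofReal_mul]
    simp
  · have h1 : x - 1 = 2 * j - (n + 1) := by omega
    rw [show n + 2 = (n + 1) + 1 from rfl, amp_eq, h1, h]
    rw [mul_assoc, Complex.im_ofReal_mul]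
    simp

lemma choose_odd (k j : ℕ) (hj : j ≤ 2 ^ k - 1) : ((((2 ^ k - 1).choose j : ℕ)) : ZMod 2) = 1 := by
  induction j with
  | zero => simp
  | succ j ih =>
    have h1 := ih (by omega)
    have h2 : (2 ^ k).choose (j + 1) = (2 ^ k - 1).choose j + (2 ^ k - 1).choose (j + 1) := by
      obtain ⟨m, hm⟩ : ∃ m, 2 ^ k = m + 1 := ⟨2 ^ k - 1, by have := Nat.one_le_two_pow (n := k); omega⟩
      rw [hm, Nat.choose_succ_succ, Nat.add_sub_cancel]
    have h3 : 2 ∣ (2 ^ k).choose (j + 1) :=
      Nat.prime_two.dvd_choose_pow (by omega) (by omega)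
    have h4 : (((2 ^ k).choose (j + 1) : ℕ) : ZMod 2) = 0 := (ZMod.natCast_eq_zero_iff _ _).2 h3
    rw [h2] at h4
    push_cast at h4
    rw [h1] at h4
    have : ∀ z : ZMod 2, 1 + z = 0 → z = 1 := by decide
    exact this _ h4

/-- A parity criterion for the real and imaginary parts, and the case `t = 2 ^ k + 1`. -/
theorem result :
    (∀ n j : ℕ, Odd (n.choose j) →
      (amp (2 * j - n) (n + 2)).re ≠ 0 ∧ (amp (2 * j + 2 - n) (n + 2)).im ≠ 0) ∧
    (∀ (k : ℕ) (x : ℤ), (-(((2 ^ k + 1 : ℕ) : ℤ)) + 2 < x) → x < ((2 ^ k + 1 : ℕ) : ℤ) →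
      Even (x + ((2 ^ k + 1 : ℕ) : ℤ)) →
      (amp x (2 ^ k + 1)).re ≠ 0 ∧ (amp x (2 ^ k + 1)).im ≠ 0) := by
  have key : ∀ n j : ℕ, Odd (n.choose j) →
      (amp (2 * j - n) (n + 2)).re ≠ 0 ∧ (amp (2 * j + 2 - n) (n + 2)).im ≠ 0 := by
    intro n j hodd
    have hone : ((n.choose j : ℕ) : ZMod 2) = 1 := by
      rw [ZMod.natCast_eq_one_iff_odd]; exact hodd
    constructor
    · obtain ⟨c, e, o, hc, hre, _, _, ho⟩ := amp_form n (2 * j - n) j rfl
      rw [hre]
      have : o ≠ 0 := by
        rintro rfl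
        unfold B at ho
        rw [if_pos (by omega), Int.toNat_natCast, hone] at ho
        simp at ho
      exact mul_ne_zero hc.ne' (by exact_mod_cast this)
    · obtain ⟨c, e, o, hc, _, him, he, _⟩ := amp_form n (2 * j + 2 - n) (j + 1) (by ring)
      rw [him]
      have : e ≠ 0 := by
        rintro rfl
        unfold B at he
        rw [if_pos (by omega), show ((j : ℤ) + 1 - 1).toNat = j by omega, hone] at he
        simp at he
      exact mul_ne_zero hc.ne' (by exact_mod_cast this)
  refine ⟨key, ?_⟩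
  intro k x h1 h2 h3
  have hk : 1 ≤ 2 ^ k := Nat.one_le_two_pow
  obtain ⟨n, hn⟩ : ∃ n, 2 ^ k = n + 1 := ⟨2 ^ k - 1, by omega⟩
  have hodd : ∀ j, j ≤ n → Odd (n.choose j) := by
    intro j hj
    rw [← ZMod.natCast_eq_one_iff_odd]
    have := choose_odd k j (by omega)
    rwa [show 2 ^ k - 1 = n by omega] at this
  rw [hn] at h1 h2 h3 ⊢
  push_cast at h1 h2 h3
  obtain ⟨r, hr⟩ := h3
  obtain ⟨j, hj⟩ : ∃ j : ℕ, r = (j : ℤ) + 2 ∨ (r = 1 ∧ j = 0) := by
    by_cases h : r = 1
    · exact ⟨0, Or.inr ⟨h, rfl⟩⟩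
    · exact ⟨(r - 2).toNat, Or.inl (by omega)⟩
  rcases hj with hj | ⟨hj, _⟩
  · constructor
    · have := (key n (j + 1) (hodd _ (by omega))).1
      have hx : (2 * ((j + 1 : ℕ) : ℤ) - n : ℤ) = x := by push_cast; omega
      rwa [hx] at this
    · have := (key n j (hodd _ (by omega))).2
      have hx : (2 * (j : ℤ) + 2 - n : ℤ) = x := by omega
      rwa [hx] at this
  · exfalso; omega

end Pool.Agent.Results.MP_0d3661_nt.OddBinomial
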